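import Pool.Agent.H95.DR.Targets

/-!
# Row AXL of the board `dfx_modules`: the `L`-functions exist (real quadratic fields)
after `Pool/Agent/H48/FC/AEXL.lean`
-/

set_option autoImplicit false

open MeasureTheory Set Filter NumberField
open scoped Real nonZeroDivisors Matrix MatrixGroups
open Pool.Agent.H31.CN Pool.Agent.H89.FM Pool.Agent.H61.FM Pool.Agent.H89.FC Pool.Agent.H95.FC
open Pool.Agent.H89.DF Pool.Agent.H95.DR

namespace Pool.Agent.H10.DF

theorem exlr_div (Lam : ℂ → ℂ) (hL : Differentiable ℂ Lam) (κ : ℕ) (ν : ℝ)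
    (h0 : ¬ (κ = 0 ∧ ν = 0) → Lam 0 = 0) : ∃ G : ℂ → ℂ, Differentiable ℂ G ∧
      ∀ s : ℂ, 1 < s.re → G s * (s * Complex.Gamma ((s + κ + ν * Complex.I) / 2) *
        Complex.Gamma ((s + κ - ν * Complex.I) / 2)) = Lam s := by
  have hg : ∀ a : ℂ, Differentiable ℂ (fun s : ℂ => (Complex.Gamma ((s + a) / 2))⁻¹) := by
    intro a s
    have h3 := Complex.differentiable_one_div_Gamma ((s + a) / 2)
    exact DifferentiableAt.comp (g := fun z : ℂ => (Complex.Gamma z)⁻¹)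
      (f := fun z : ℂ => (z + a) / 2) s h3 (by fun_prop)
  have hpos : ∀ (s : ℂ) (a : ℂ), 1 < s.re → 0 ≤ a.re → Complex.Gamma ((s + a) / 2) ≠ 0 := by
    intro s a hs ha
    refine Complex.Gamma_ne_zero_of_re_pos ?_
    have e : ((s + a) / 2).re = (s.re + a.re) / 2 := by
      have : (s + a) / 2 = ((1 / 2 : ℝ) : ℂ) * (s + a) := by
        push_cast
        ring
      rw [this, Complex.re_ofReal_mul, Complex.add_re]
      ring
    rw [e]
    linarith
  by_cases hm : κ = 0 ∧ ν = 0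
  · obtain ⟨rfl, rfl⟩ := hm
    refine ⟨fun s => (Complex.Gamma ((s + 2) / 2))⁻¹ * (Complex.Gamma ((s + 0) / 2))⁻¹ *
      (Lam s / 2), ((hg 2).mul (hg 0)).mul (hL.div_const 2), fun s hs => ?_⟩
    have hs0 : s ≠ 0 := by
      rintro rfl
      norm_num at hs
    have hG : Complex.Gamma ((s + 0) / 2) ≠ 0 := hpos s 0 hs (by simp)
    have e1 : (s + 2) / 2 = s / 2 + 1 := by ring
    have e2 : Complex.Gamma ((s + 2) / 2) = s / 2 * Complex.Gamma (s / 2) := by
      rw [e1, Complex.Gamma_add_one _ (div_ne_zero hs0 two_ne_zero)]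
    rw [add_zero] at hG
    simp only [Nat.cast_zero, Complex.ofReal_zero, zero_mul, add_zero, sub_zero]
    rw [e2]
    field_simp
  · refine ⟨fun s => (Complex.Gamma ((s + (κ + ν * Complex.I)) / 2))⁻¹ *
      (Complex.Gamma ((s + (κ - ν * Complex.I)) / 2))⁻¹ * dslope Lam 0 s,
      ((hg _).mul (hg _)).mul ?_, fun s hs => ?_⟩
    · have h1 := (Complex.differentiableOn_dslope (c := (0 : ℂ)) (f := Lam)
        (s := (Set.univ : Set ℂ)) Filter.univ_mem).2 hL.differentiableOn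
      exact differentiableOn_univ.1 h1
    · have hp : Complex.Gamma ((s + (κ + ν * Complex.I)) / 2) ≠ 0 :=
        hpos s _ hs (by simp)
      have hq : Complex.Gamma ((s + (κ - ν * Complex.I)) / 2) ≠ 0 :=
        hpos s _ hs (by simp)
      have h1 : (s - 0) • dslope Lam 0 s = Lam s - Lam 0 := sub_smul_dslope Lam 0 s
      rw [h0 hm, sub_zero, sub_zero, smul_eq_mul] at h1
      have e1 : s + κ + ν * Complex.I = s + (κ + ν * Complex.I) := by ring
      have e2 : s + κ - ν * Complex.I = s + (κ - ν * Complex.I) := by ring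
      rw [e1, e2, ← h1]
      field_simp

theorem zp_im {K : Type} [Field K] [NumberField K] {σ σ' : K →+* ℝ} {N : ℝ} {a b : 𝓞 K} {Q : QF}
    (h : PB σ σ' N a b Q) (τ : ℝ) : 0 < (zp σ σ' τ a b).im := by
  have ho := h.ori
  have e1 : Real.exp (τ / 2) * Real.exp (-(τ / 2)) = 1 := by
    rw [← Real.exp_add, add_neg_cancel, Real.exp_zero]
  have hre : ∀ c : 𝓞 K, (ph σ σ' τ c).re = Real.exp (τ / 2) * σ (c : K) := by
    intro c
    unfold ph
    rw [Complex.add_re, Complex.ofReal_re, Complex.re_ofReal_mul, Complex.I_re, mul_zero, add_zero]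
  have him : ∀ c : 𝓞 K, (ph σ σ' τ c).im = Real.exp (-(τ / 2)) * σ' (c : K) := by
    intro c
    unfold ph
    rw [Complex.add_im, Complex.ofReal_im, Complex.im_ofReal_mul, Complex.I_im, mul_one, zero_add]
  have hkey : (ph σ σ' τ b).im * (ph σ σ' τ a).re - (ph σ σ' τ b).re * (ph σ σ' τ a).im =
      σ (a : K) * σ' (b : K) - σ (b : K) * σ' (a : K) := by
    rw [hre, hre, him, him]
    linear_combination (σ (a : K) * σ' (b : K) - σ (b : K) * σ' (a : K)) * e1
  have hn : 0 < Complex.normSq (ph σ σ' τ a) := by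
    refine Complex.normSq_pos.2 fun h0 => ?_
    rw [h0] at hkey
    simp only [Complex.zero_re, Complex.zero_im, mul_zero, sub_zero] at hkey
    linarith
  unfold zp
  rw [Complex.div_im]
  have : (ph σ σ' τ b).im * (ph σ σ' τ a).re / Complex.normSq (ph σ σ' τ a) -
      (ph σ σ' τ b).re * (ph σ σ' τ a).im / Complex.normSq (ph σ σ' τ a) =
      (σ (a : K) * σ' (b : K) - σ (b : K) * σ' (a : K)) / Complex.normSq (ph σ σ' τ a) := by
    rw [← sub_div, hkey]
  rw [this]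
  exact div_pos ho hn

open Classical in
theorem pf_EXLr (hLF1r : T_LF1r) (hHOLr : T_HOLr) (hCRX : Pool.Agent.H23.DF.T_CRX)
    (hEZ0 : Pool.Agent.H89.FC.T_EZ0) (hEZC : T_EZC) (hLC1r : T_LC1r) (hLS1 : T_LS1)
    (hDDX : T_DDX) (hSML : T_SML) (hPBT : T_PBT) (hFLS : Pool.Agent.H89.FM.T_FLS)
    (_hUWN : T_UWN) : T_EXLr := by
  intro K _ _ σ σ' D f κ ν ψ hRQ hψ
  obtain ⟨R⟩ := hDDX K D f σ σ' hRQ hψ.pos
  have hf : 1 ≤ f := hψ.pos
  have hDpos : 0 < D := hRQ.pos
  have hq0 : (f : ℂ) ^ 2 * D ≠ 0 := by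
    have h1 : (f : ℂ) ≠ 0 := by exact_mod_cast (Nat.pos_iff_ne_zero.1 hf)
    have h2 : (D : ℂ) ≠ 0 := by exact_mod_cast hDpos.ne'
    exact mul_ne_zero (pow_ne_zero 2 h1) h2
  have htop : (⊤ : AddSubgroup (ℤ × ℤ)) ∈ Ls 1 :=
    ((hFLS 1 ⊤ le_rfl).1).2 AddSubgroup.index_top
  obtain ⟨hlc, -, hexp⟩ := hLC1r K σ σ' f κ ν ψ hψ
  have hexpP : Complex.exp (((ν * R.P : ℝ) : ℂ) * Complex.I) = 1 := hexp D R.η hRQ R.un
  -- the bases
  have hPB : ∀ c, ∀ V ∈ R.T c, PB σ σ' (Ideal.absNorm (R.I c : Ideal (𝓞 K)) : ℝ) (R.v₁ c V)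
      (R.v₂ c V) (R.fo c V) := by
    intro c V hV
    have h1 := (hPBT K σ σ').1 (R.I c : Ideal (𝓞 K)) (R.α c) (R.β c) (R.Q c)
      (nonZeroDivisors.coe_ne_zero (R.I c)) (R.ob c)
    exact ((hPBT K σ σ').2.1 _ (R.α c) (R.β c) (R.Q c) f V (R.W c V) h1 hf
      ((R.lt c).one V hV)).1
  have hG1 : ∀ (m : ℤ) (s : ℂ) (c : ClassGroup (𝓞 K)) (V : ℤ × ℤ) (τ : ℝ),
      R.G κ m s 1 c V τ = Fr σ σ' κ m s 1 ⊤ (R.v₁ c V) (R.v₂ c V) τ := by
    intro m s c V τ
    unfold DD.G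
    rw [hLS1, Finset.sum_singleton]
  obtain ⟨Lam, hLam⟩ : ∃ Lam : ℂ → ℂ, Lam = fun s => R.E κ κ ν ψ 1 s := ⟨_, rfl⟩
  have hLam' : Lam = fun s => (R.n : ℂ)⁻¹ * ∑ j ∈ R.J, R.ρ κ ν ψ j.1 j.2 *
      ∫ τ in (0 : ℝ)..R.P, Fr σ σ' κ κ s 1 ⊤ (R.v₁ j.1 j.2) (R.v₂ j.1 j.2) τ *
      Complex.exp (-(((ν * τ : ℝ) : ℂ) * Complex.I)) := by
    rw [hLam]
    funext s
    unfold DD.E
    simp only [hG1]
  have hJT : ∀ j ∈ R.J, j.2 ∈ R.T j.1 := by
    intro j hj
    unfold DD.J at hj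
    exact (Finset.mem_sigma.1 hj).2
  have hLd : Differentiable ℂ Lam := by
    rw [hLam']
    refine Differentiable.const_mul ?_ _
    refine Differentiable.fun_sum fun j hj => ?_
    exact ((hHOLr K σ σ' _ _ _ _ (hPB j.1 j.2 (hJT j hj)) κ κ 1 ⊤ le_rfl htop).2.2 ν
      R.P).const_mul _
  have hL0 : ¬ (κ = 0 ∧ ν = 0) → Lam 0 = 0 := by
    intro hm
    rw [hLam']
    simp only []
    rw [Finset.sum_eq_zero, mul_zero]
    intro j hj
    have him := fun τ => zp_im (hPB j.1 j.2 (hJT j hj)) τ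
    by_cases hκ : κ = 0
    · have hν : ν ≠ 0 := fun h => hm ⟨hκ, h⟩
      subst hκ
      have h1 : ∀ τ : ℝ, Fr σ σ' 0 ((0 : ℕ) : ℤ) 0 1 ⊤ (R.v₁ j.1 j.2) (R.v₂ j.1 j.2) τ = 1 := by
        intro τ
        unfold Fr
        simp only [Nat.cast_zero, neg_zero, zpow_zero, pow_zero]
        rw [hEZC _ _ (him τ)]
        norm_num
      simp only [h1, one_mul]
      have h2 : (fun τ : ℝ => Complex.exp (-(((ν * τ : ℝ) : ℂ) * Complex.I))) =
          fun τ : ℝ => Complex.exp ((-(ν * Complex.I)) * τ) := by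
        funext τ
        congr 1
        push_cast
        ring
      have h3 : (-(ν * Complex.I) : ℂ) ≠ 0 := by
        rw [neg_ne_zero]
        exact mul_ne_zero (Complex.ofReal_ne_zero.2 hν) Complex.I_ne_zero
      rw [h2, integral_exp_mul_complex h3]
      have h4 : Complex.exp (-(ν * Complex.I) * (R.P : ℂ)) = 1 := by
        have h5 : -(ν * Complex.I) * (R.P : ℂ) = -(((ν * R.P : ℝ) : ℂ) * Complex.I) := by
          push_cast
          ring
        rw [h5, Complex.exp_neg, hexpP, inv_one]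
      rw [h4, Complex.ofReal_zero, mul_zero, Complex.exp_zero, sub_self, zero_div, mul_zero]
    · have hm0 : (κ : ℤ) ≠ 0 := by exact_mod_cast hκ
      have h1 : ∀ τ : ℝ, Fr σ σ' κ κ 0 1 ⊤ (R.v₁ j.1 j.2) (R.v₂ j.1 j.2) τ = 0 := by
        intro τ
        unfold Fr
        rw [hEZ0 κ 1 ⊤ _ _ hm0 le_rfl htop (him τ),
          hEZ0 (-κ) 1 ⊤ _ _ (neg_ne_zero.2 hm0) le_rfl htop (him τ)]
        simp
      simp only [h1, zero_mul, intervalIntegral.integral_zero, mul_zero]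
  obtain ⟨G, hGd, hG⟩ := exlr_div Lam hLd κ ν hL0
  have hpi : (π : ℂ) ≠ 0 := Complex.ofReal_ne_zero.2 Real.pi_ne_zero
  have hI : Complex.I ^ κ ≠ 0 := pow_ne_zero _ Complex.I_ne_zero
  refine ⟨fun s => G s * 2 * (π : ℂ) ^ (s + κ) /
    (Complex.I ^ κ * (s - 1) * ((f : ℂ) ^ 2 * D) ^ (s / 2)), ?_, ?_⟩
  · intro s hs
    have h1 : DifferentiableAt ℂ (fun s : ℂ => (π : ℂ) ^ (s + κ)) s :=
      DifferentiableAt.const_cpow (by fun_prop) (Or.inl hpi)
    have h3 : DifferentiableAt ℂ (fun s : ℂ => ((f : ℂ) ^ 2 * D) ^ (s / 2)) s :=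
      DifferentiableAt.const_cpow (differentiableAt_id.div_const 2) (Or.inl hq0)
    refine DifferentiableAt.differentiableWithinAt ?_
    refine (((hGd s).mul_const 2).mul h1).div
      (((differentiableAt_id.sub_const 1).const_mul _).mul h3) ?_
    refine mul_ne_zero (mul_ne_zero hI (sub_ne_zero.2 hs)) ?_
    rw [Complex.cpow_def_of_ne_zero hq0]
    exact Complex.exp_ne_zero _
  · intro s hs
    -- the series
    have hψ1 : ∀ I : Ideal (𝓞 K), ‖ψ I‖ ≤ 1 := by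
      intro I
      by_cases h : Pool.Agent.H95.CF.Pr K f I
      · exact (hψ.abs I h).le
      · rw [hψ.van I h, norm_zero]
        exact zero_le_one
    have hsum : Summable fun J : (Ideal (𝓞 K))⁰ =>
        ψ J * (Ideal.absNorm (J : Ideal (𝓞 K)) : ℂ) ^ (-s) := by
      refine Summable.of_norm_bounded ((hSML K D f σ σ' hRQ).1 s.re hs) fun J => ?_
      have hJ : 0 < Ideal.absNorm (J : Ideal (𝓞 K)) :=
        Nat.pos_of_ne_zero (Ideal.absNorm_ne_zero_of_nonZeroDivisors J)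
      rw [norm_mul, Complex.norm_natCast_cpow_of_pos hJ, Complex.neg_re]
      calc ‖ψ J‖ * (Ideal.absNorm (J : Ideal (𝓞 K)) : ℝ) ^ (-s.re) ≤
          1 * (Ideal.absNorm (J : Ideal (𝓞 K)) : ℝ) ^ (-s.re) :=
            mul_le_mul_of_nonneg_right (hψ1 _) (Real.rpow_nonneg (Nat.cast_nonneg _) _)
        _ = (nm J : ℝ) ^ (-s.re) := by
            rw [one_mul]
            rfl
    obtain ⟨A, hA⟩ := hsum
    have h1 := hLF1r K D f σ σ' κ ν ψ hRQ hψ R κ 1 squarefree_one s A hs hA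
    rw [hlc, one_mul, Int.natAbs_natCast, hCRX κ ν s hψ.kap (by linarith)] at h1
    have h2 := hG s hs
    have h3 : R.E κ κ ν ψ 1 s = Lam s := by rw [hLam]
    rw [h3, ← h2] at h1
    have hs0 : s ≠ 0 := by
      rintro rfl
      norm_num at hs
    have hs1 : s - 1 ≠ 0 := by
      intro h
      have h1 : s = 1 := by linear_combination h
      rw [h1] at hs
      norm_num at hs
    have hkap : (0 : ℝ) ≤ κ := Nat.cast_nonneg _
    have hre : ∀ a : ℂ, 0 ≤ a.re → Complex.Gamma ((s + a) / 2) ≠ 0 := by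
      intro a ha
      refine Complex.Gamma_ne_zero_of_re_pos ?_
      have e : ((s + a) / 2).re = (s.re + a.re) / 2 := by
        have : (s + a) / 2 = ((1 / 2 : ℝ) : ℂ) * (s + a) := by
          push_cast
          ring
        rw [this, Complex.re_ofReal_mul, Complex.add_re]
        ring
      rw [e]
      linarith
    have hp : Complex.Gamma ((s + κ + ν * Complex.I) / 2) ≠ 0 := by
      rw [add_assoc]
      exact hre _ (by simp)
    have hq : Complex.Gamma ((s + κ - ν * Complex.I) / 2) ≠ 0 := by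
      rw [add_sub_assoc]
      exact hre _ (by simp)
    have hDs : ((f : ℂ) ^ 2 * D) ^ (s / 2) ≠ 0 := by
      rw [Complex.cpow_def_of_ne_zero hq0]
      exact Complex.exp_ne_zero _
    have hpp : (π : ℂ) ^ (s + κ) * (π : ℂ) ^ (-(s + κ)) = 1 := by
      rw [← Complex.cpow_add _ _ hpi, add_neg_cancel, Complex.cpow_zero]
    have h4 : G s = Complex.I ^ κ / 2 * (s - 1) * (π : ℂ) ^ (-(s + κ)) *
        ((f : ℂ) ^ 2 * D) ^ (s / 2) * A := by
      refine mul_right_cancel₀ (mul_ne_zero (mul_ne_zero hs0 hp) hq) ?_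
      rw [← h1]
      ring
    have hval : G s * 2 * (π : ℂ) ^ (s + κ) /
        (Complex.I ^ κ * (s - 1) * ((f : ℂ) ^ 2 * D) ^ (s / 2)) = A := by
      rw [h4, div_eq_iff (mul_ne_zero (mul_ne_zero hI hs1) hDs)]
      linear_combination (Complex.I ^ κ * (s - 1) * ((f : ℂ) ^ 2 * D) ^ (s / 2) * A) * hpp
    simp only []
    rw [hval]
    exact hA

end Pool.Agent.H10.DF
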